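import Mathlib
import Pool.Agent.N709.UM.Prod

set_option autoImplicit false

/-!
MP_ff2384_gt, Q1 (partial): the product of a family of locally compact z-minimal groups `G i` is
z-minimal if, for every `i`, the quotient of `G i` by its centre is second countable, or is itself
z-minimal.  In particular products of second countable locally compact z-minimal groups are
z-minimal.
-/

namespace Pool.Agent.Results.MP_ff2384_gt.SecondCountableZMinimal

universe u v

/-- A Hausdorff topological group `(G, t)` is minimal if every Hausdorff group topology `s` on `G`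
which is coarser than `t` (in Lean: `t ≤ s`) is equal to `t`. -/
structure MinimalGroup (G : Type u) [Group G] [t : TopologicalSpace G] : Prop where
  isTopologicalGroup : IsTopologicalGroup G
  t2 : T2Space G
  minimal : ∀ s : TopologicalSpace G, @IsTopologicalGroup G s _ → @T2Space G s → t ≤ s → s = t

/-- A topological group is z-minimal if it is minimal and its quotient by the centre (with the
quotient topology) is minimal. -/
structure ZMinimal (G : Type u) [Group G] [TopologicalSpace G] : Prop where
  minimal : MinimalGroup G
  quotient : MinimalGroup (G ⧸ Subgroup.center G)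

/-- Products of locally compact z-minimal groups `G i`, such that for every `i` the quotient
`G i ⧸ Z(G i)` is second countable or z-minimal, are z-minimal. -/
theorem result {I : Type v} {G : I → Type u} [∀ i, Group (G i)] [∀ i, TopologicalSpace (G i)]
    [∀ i, LocallyCompactSpace (G i)] (hz : ∀ i, ZMinimal (G i))
    (h : ∀ i, SecondCountableTopology (G i ⧸ Subgroup.center (G i)) ∨
      ZMinimal (G i ⧸ Subgroup.center (G i))) :
    ZMinimal (∀ i, G i) := by
  have h1 : ∀ i, IsTopologicalGroup (G i) := fun i => (hz i).minimal.isTopologicalGroup
  have h2 : ∀ i, T2Space (G i) := fun i => (hz i).minimal.t2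
  have h3 : ∀ i, IsTopologicalGroup (G i ⧸ Subgroup.center (G i)) :=
    fun i => (hz i).quotient.isTopologicalGroup
  have h4 : ∀ i, T2Space (G i ⧸ Subgroup.center (G i)) := fun i => (hz i).quotient.t2
  have h5 : ∀ i, IsCompact (Subgroup.center (G i) : Set (G i)) := fun i =>
    isCompact_iff_compactSpace.2 (Pool.Agent.R508.DAC.center_compact (hz i).minimal.minimal)
  have h6 : ∀ i, LocallyCompactSpace (G i ⧸ Subgroup.center (G i)) := fun i => inferInstance
  have h7 : ∀ i, IsCompact (Subgroup.center (G i ⧸ Subgroup.center (G i)) :
      Set (G i ⧸ Subgroup.center (G i))) := fun i =>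
    isCompact_iff_compactSpace.2 (Pool.Agent.R508.DAC.center_compact (hz i).quotient.minimal)
  refine ⟨⟨inferInstance, inferInstance, ?_⟩, ⟨inferInstance, ?_, ?_⟩⟩
  · exact Pool.Agent.N709.UM.prod_min I G (fun i => (hz i).minimal.minimal)
      fun i => Or.inr ⟨h5 i, (hz i).quotient.minimal⟩
  · have : IsClosed (Subgroup.center (∀ i, G i) : Set (∀ i, G i)) :=
      Pool.Agent.R508.DAC.isClosed_center
    infer_instance
  · refine Pool.Agent.N942.UMQUO.quo I G ?_
    refine Pool.Agent.N709.UM.prod_min I (fun i => G i ⧸ Subgroup.center (G i))
      (fun i => (hz i).quotient.minimal) ?_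
    intro i
    rcases h i with hsc | hq
    · exact Or.inl (Pool.Agent.N709.UM.star _ (hz i).quotient.minimal)
    · exact Or.inr ⟨h7 i, hq.quotient.minimal⟩

end Pool.Agent.Results.MP_ff2384_gt.SecondCountableZMinimal
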